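import Pool.Agent.Helper2.M3.Defs

/-! Parts Z1, Z2 of the plan for Mahler's conjecture in dimension three (MP_5f4cdd_gt, helper2). -/

set_option autoImplicit false

open MeasureTheory Set

noncomputable section

namespace Pool.Agent.Helper96.MB

open Pool.Agent.Helper2.M3

/-- the lower bound for `H3` -/
theorem H3_low {θ s e η : ℝ} (hs : 0 ≤ s) (he : e = 1 - 2 * θ * s) (hη : η = θ - 1)
    (he0 : 0 ≤ e) (hη0 : 0 ≤ η) (hη1 : η ≤ 1 / 3) (h1s : 1 / 2 ≤ 1 - s) :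
    (1 - s) ^ 2 / 2 ≤ H3 θ s := by
  have hθ : θ = 1 + η := by linarith
  have e1 : H3 θ s - (1 - s) ^ 2 / 2 = (e / 2) * ((1 - s) ^ 2 - (1 - η) * e ^ 2) +
      η * s * (1 - s) * ((1 - s) - (2 * θ - 1) * e) := by
    rw [hη, he]; unfold H3; ring
  have p0 : 0 ≤ s * (1 - s) := mul_nonneg hs (by linarith)
  have ps : 0 ≤ η * s := mul_nonneg hη0 hs
  have a1 : -(2 * η * e) ≤ (1 - s) - (2 * θ - 1) * e := by
    have : (1 - s) - (2 * θ - 1) * e + 2 * η * e = s + 2 * (η * s) := by rw [he, hθ]; ring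
    linarith
  have a2 : (2 * θ - 1) * (s * (1 - s)) ≤ (1 - s) ^ 2 - e ^ 2 := by
    have : (1 - s) ^ 2 - e ^ 2 = (2 * θ - 1) * s * (1 - s) + (2 * θ - 1) * s * e := by
      rw [he]; ring
    rw [this]
    have : 0 ≤ (2 * θ - 1) * s * e := by
      apply mul_nonneg (mul_nonneg _ hs) he0; linarith
    linarith
  have a3 : 4 * η ^ 2 * (s * (1 - s)) ≤ (2 * θ - 1) * (s * (1 - s)) := by
    apply mul_le_mul_of_nonneg_right _ p0
    nlinarith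
  have a4 : 0 ≤ (e / 2) * ((1 - s) ^ 2 - e ^ 2 - 4 * η ^ 2 * (s * (1 - s))) := by
    apply mul_nonneg <;> linarith
  have a5 : η * s * (1 - s) * (-(2 * η * e)) ≤ η * s * (1 - s) * ((1 - s) - (2 * θ - 1) * e) := by
    apply mul_le_mul_of_nonneg_left a1
    exact mul_nonneg ps (by linarith)
  have a6 : 0 ≤ (e / 2) * (η * e ^ 2) := by positivity
  linarith [e1, a4, a5, a6]

theorem Z1 {θ s : ℝ} (h1 : 1 ≤ θ) (h2 : θ ≤ 4 / 3) (hs : 0 ≤ s) (hs2 : 2 * θ * s ≤ 1) :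
    0 < H3 θ s ∧ F3 θ s ^ 3 ≤ P3 θ s * H3 θ s ^ 2 := by
  obtain ⟨e, he⟩ : ∃ e, e = 1 - 2 * θ * s := ⟨_, rfl⟩
  obtain ⟨η, hη⟩ : ∃ η, η = θ - 1 := ⟨_, rfl⟩
  have he0 : 0 ≤ e := by linarith
  have hη0 : 0 ≤ η := by linarith
  have hη1 : η ≤ 1 / 3 := by linarith
  have hts : s ≤ θ * s := by nlinarith
  have hs3 : s ≤ 1 / 2 := by linarith
  have h1s : 1 / 2 ≤ 1 - s := by linarith
  have hse : s * e ≤ 1 / 8 := by
    have h3 : s * e ≤ s * (1 - 2 * s) := by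
      apply mul_le_mul_of_nonneg_left _ hs
      linarith
    have h4 : s * (1 - 2 * s) ≤ 1 / 8 := by nlinarith [sq_nonneg (s - 1 / 4)]
    linarith
  have hse0 : 0 ≤ s * e := mul_nonneg hs he0
  have hHlow := H3_low hs he hη he0 hη0 hη1 h1s
  obtain ⟨H, hH⟩ : ∃ H, H = H3 θ s := ⟨_, rfl⟩
  obtain ⟨g, hg⟩ : ∃ g, g = 3 * θ - 2 - (2 * θ ^ 2 - 1) * s := ⟨_, rfl⟩
  obtain ⟨D, hD⟩ : ∃ D, D = (θ - 1) * (s * e) * g := ⟨_, rfl⟩
  have hFD : F3 θ s = H + D := by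
    rw [hH, hD, hg, he]; unfold F3 H3; ring
  rw [← hH] at hHlow
  have hHpos : 0 < H := by
    have : 0 < (1 - s) ^ 2 / 2 := by positivity
    linarith
  refine ⟨hH ▸ hHpos, ?_⟩
  have hP : P3 θ s = 3 * F3 θ s - 2 * H + (45 * θ ^ 2 - 40 * θ + 5) * ((θ - 1) * (s * e)) ^ 2 := by
    rw [hH, he]; unfold P3; ring
  rw [← hH, hP, hFD]
  have hgle : g ≤ (3 * θ - 2) * (1 - s) := by
    have : 0 ≤ (θ - 1) * (2 * θ - 1) * s := by
      apply mul_nonneg (mul_nonneg _ _) hs <;> linarith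
    rw [hg]
    linarith
  have hg0 : 0 ≤ g := by
    have hq : 0 ≤ 2 * θ ^ 2 - 1 := by nlinarith
    have h5 : (2 * θ ^ 2 - 1) * (2 * θ * s) ≤ (2 * θ ^ 2 - 1) * 1 :=
      mul_le_mul_of_nonneg_left hs2 hq
    have h6 : 2 * θ * g = 2 * θ * (3 * θ - 2) - (2 * θ ^ 2 - 1) * (2 * θ * s) := by rw [hg]; ring
    have h7 : 0 ≤ 2 * θ * g := by nlinarith
    by_contra hneg
    push Not at hneg
    nlinarith
  have hD0 : 0 ≤ D := by
    rw [hD]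
    exact mul_nonneg (mul_nonneg (by linarith) hse0) hg0
  have hDle : D ≤ (1 - s) / 12 := by
    rw [hD]
    have b1 : (θ - 1) * (s * e) ≤ 1 / 3 * (1 / 8) :=
      mul_le_mul (by linarith) hse hse0 (by norm_num)
    have b2 : g ≤ 2 * (1 - s) := by
      refine hgle.trans ?_
      apply mul_le_mul_of_nonneg_right _ (by linarith)
      linarith
    calc (θ - 1) * (s * e) * g ≤ (1 / 3 * (1 / 8)) * (2 * (1 - s)) :=
          mul_le_mul b1 b2 hg0 (by norm_num)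
      _ = _ := by ring
  have hDH : D ≤ H / 2 := by
    have : (1 - s) / 2 ≤ (1 - s) ^ 2 := by nlinarith
    linarith
  have hq : g ^ 2 * (3 * H + D) ≤ (45 * θ ^ 2 - 40 * θ + 5) * H ^ 2 := by
    have b1 : g ^ 2 ≤ (3 * θ - 2) ^ 2 * (2 * H) := by
      have b0 : g ^ 2 ≤ ((3 * θ - 2) * (1 - s)) ^ 2 := pow_le_pow_left₀ hg0 hgle 2
      rw [mul_pow] at b0
      refine b0.trans ?_
      apply mul_le_mul_of_nonneg_left _ (sq_nonneg _)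
      linarith
    have b2 : g ^ 2 * (3 * H + D) ≤ ((3 * θ - 2) ^ 2 * (2 * H)) * (7 / 2 * H) := by
      apply mul_le_mul b1 (by linarith) (by linarith)
      positivity
    refine b2.trans ?_
    have b3 : (3 * θ - 2) ^ 2 * 7 ≤ 45 * θ ^ 2 - 40 * θ + 5 := by nlinarith
    calc ((3 * θ - 2) ^ 2 * (2 * H)) * (7 / 2 * H) = ((3 * θ - 2) ^ 2 * 7) * H ^ 2 := by ring
      _ ≤ _ := mul_le_mul_of_nonneg_right b3 (sq_nonneg _)
  have hfin := mul_le_mul_of_nonneg_left hq (sq_nonneg ((θ - 1) * (s * e)))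
  have hDD : ((θ - 1) * (s * e)) ^ 2 * (g ^ 2 * (3 * H + D)) = D ^ 2 * (3 * H + D) := by
    rw [hD]; ring
  rw [hDD] at hfin
  linarith [hfin]

theorem Z2 {θ : ℝ} (h1 : 1 ≤ θ) :
    (∫ s in (0 : ℝ)..(1 / (2 * θ)), P3 θ s) + (1 - 1 / (2 * θ)) ^ 4 / 4 = 3 * θ / 16 := by
  have hθ : θ ≠ 0 := by linarith
  obtain ⟨m, hm⟩ : ∃ m, m = (θ - 1) * (2 * θ - 1) := ⟨_, rfl⟩
  obtain ⟨q, hq⟩ : ∃ q, q = (45 * θ ^ 2 - 40 * θ + 5) * (θ - 1) ^ 2 := ⟨_, rfl⟩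
  obtain ⟨c0, hc0⟩ : ∃ c, c = θ / 2 := ⟨_, rfl⟩
  obtain ⟨c1, hc1⟩ : ∃ c, c = 3 * (-2 + 4 * θ - 2 * θ ^ 2) - 2 * (-3 - m + 6 * θ * (1 - θ / 2)) :=
    ⟨_, rfl⟩
  obtain ⟨c2, hc2⟩ : ∃ c, c = 3 * (3 - 4 * θ - 4 * θ ^ 2 + 2 * θ ^ 3) -
    2 * (3 + m * (1 + 2 * θ) - 12 * θ ^ 2 * (1 - θ / 2)) + q := ⟨_, rfl⟩
  obtain ⟨c3, hc3⟩ : ∃ c, c = 3 * (-1 + 4 * θ ^ 2) -
    2 * (-1 - 2 * θ * m + 8 * θ ^ 3 * (1 - θ / 2)) - 4 * θ * q := ⟨_, rfl⟩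
  obtain ⟨c4, hc4⟩ : ∃ c, c = 4 * θ ^ 2 * q := ⟨_, rfl⟩
  have hP : ∀ s, P3 θ s = c0 + c1 * s + c2 * s ^ 2 + c3 * s ^ 3 + c4 * s ^ 4 := by
    intro s
    rw [hc0, hc1, hc2, hc3, hc4, hq, hm]
    unfold P3 F3 H3
    ring
  have hd : ∀ s ∈ Set.uIcc (0 : ℝ) (1 / (2 * θ)),
      HasDerivAt (fun s => c0 * s + c1 / 2 * s ^ 2 + c2 / 3 * s ^ 3 + c3 / 4 * s ^ 4 +
        c4 / 5 * s ^ 5) (P3 θ s) s := by
    intro s _
    rw [hP]
    have d1 := (hasDerivAt_id' s).const_mul c0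
    have d2 := (hasDerivAt_pow 2 s).const_mul (c1 / 2)
    have d3 := (hasDerivAt_pow 3 s).const_mul (c2 / 3)
    have d4 := (hasDerivAt_pow 4 s).const_mul (c3 / 4)
    have d5 := (hasDerivAt_pow 5 s).const_mul (c4 / 5)
    have d := (((d1.add d2).add d3).add d4).add d5
    refine d.congr_deriv ?_
    push_cast
    ring
  have hcont : IntervalIntegrable (fun s => P3 θ s) volume 0 (1 / (2 * θ)) := by
    apply Continuous.intervalIntegrable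
    unfold P3 F3 H3
    fun_prop
  rw [intervalIntegral.integral_eq_sub_of_hasDerivAt hd hcont, hc0, hc1, hc2, hc3, hc4, hq, hm]
  field_simp
  ring

end Pool.Agent.Helper96.MB
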